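import Pool.Agent.Helper57.NX3.Defs
import Pool.Agent.Helper15.KS.Ord

/-!
# Project NX2, part C10: averages over long intervals
-/

set_option autoImplicit false

open Finset
open scoped BigOperators

namespace Pool.Agent.Helper57.NX3

noncomputable section

private lemma lz_nonneg8 (z : ℕ) : 0 ≤ Real.log ((2 : ℝ) ^ z) :=
  Real.log_nonneg (one_le_pow₀ (by norm_num))

private lemma FA_nonneg8 (z : ℕ) (A : Finset ℕ) (x : ℕ) : 0 ≤ FA z A x := by
  unfold FA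
  split_ifs
  · exact lz_nonneg8 z
  · exact le_refl 0

private lemma FA_le8 (z : ℕ) (A : Finset ℕ) (x : ℕ) : FA z A x ≤ Real.log ((2 : ℝ) ^ z) := by
  unfold FA
  split_ifs
  · exact le_refl _
  · exact lz_nonneg8 z

private lemma AN_nonneg8 {f : ℕ → ℝ} (hf : ∀ x, 0 ≤ f x) (L x : ℕ) : 0 ≤ AN L f x :=
  div_nonneg (sum_nonneg fun _ _ => hf _) (Nat.cast_nonneg L)

private lemma AN_eq8 (L : ℕ) (f : ℕ → ℝ) (x : ℕ) :
    AN L f x = (∑ y ∈ Ico x (x + L), f y) / L := by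
  unfold AN
  congr 1
  rw [sum_Ico_eq_sum_range]
  congr 1
  simp

private lemma AN_step8 {f : ℕ → ℝ} {B : ℝ} (hf : ∀ x, 0 ≤ f x) (hB : ∀ x, f x ≤ B) {L : ℕ}
    (hL : 1 ≤ L) (x t : ℕ) : |AN L f (x + t) - AN L f x| ≤ B * t / L := by
  have hLr : (0 : ℝ) < L := by exact_mod_cast hL
  have hB0 : 0 ≤ B := (hf 0).trans (hB 0)
  rw [AN_eq8, AN_eq8, ← sub_div, abs_div, abs_of_pos hLr]
  apply div_le_div_of_nonneg_right _ hLr.le
  have e1 : (∑ y ∈ Ico x (x + L), f y) + ∑ y ∈ Ico (x + L) (x + t + L), f y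
      = ∑ y ∈ Ico x (x + t + L), f y :=
    sum_Ico_consecutive f (by omega) (by omega)
  have e2 : (∑ y ∈ Ico x (x + t), f y) + ∑ y ∈ Ico (x + t) (x + t + L), f y
      = ∑ y ∈ Ico x (x + t + L), f y :=
    sum_Ico_consecutive f (by omega) (by omega)
  have b1 : ∑ y ∈ Ico (x + L) (x + t + L), f y ≤ B * t := by
    calc ∑ y ∈ Ico (x + L) (x + t + L), f y ≤ ∑ _y ∈ Ico (x + L) (x + t + L), B :=
          sum_le_sum fun y _ => hB y
      _ = B * t := by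
          rw [sum_const, Nat.card_Ico, nsmul_eq_mul]
          have : x + t + L - (x + L) = t := by omega
          rw [this]; ring
  have b2 : ∑ y ∈ Ico x (x + t), f y ≤ B * t := by
    calc ∑ y ∈ Ico x (x + t), f y ≤ ∑ _y ∈ Ico x (x + t), B :=
          sum_le_sum fun y _ => hB y
      _ = B * t := by
          rw [sum_const, Nat.card_Ico, nsmul_eq_mul]
          have : x + t - x = t := by omega
          rw [this]; ring
  have n1 : 0 ≤ ∑ y ∈ Ico (x + L) (x + t + L), f y := sum_nonneg fun y _ => hf y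
  have n2 : 0 ≤ ∑ y ∈ Ico x (x + t), f y := sum_nonneg fun y _ => hf y
  rw [abs_le]
  constructor <;> linarith

/-- averages of the weighted indicator function over intervals of length at least
`(2 ^ z) ^ θ` are bounded -/
theorem AN_le (θ : ℝ) (hθ : 0 < θ) : ∃ V : ℝ, 1 ≤ V ∧ ∃ z0 : ℕ, ∀ z : ℕ, z0 ≤ z →
    ∀ A : Finset ℕ, PS z A → ∀ L : ℕ, ((2 : ℝ) ^ z) ^ θ ≤ L → ∀ x, AN L (FA z A) x ≤ V := by
  obtain ⟨B, hB, hbt⟩ := Pool.Agent.Helper15.KS.bt
  refine ⟨max 1 (B / θ), le_max_left _ _, ⌈1 / θ⌉₊ + 1, ?_⟩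
  intro z hz A hA L hL x
  refine le_trans ?_ (le_max_right _ _)
  have hz1 : 1 ≤ z := by omega
  have hzθ : 1 ≤ (z : ℝ) * θ := by
    have h1 : 1 / θ ≤ (⌈1 / θ⌉₊ : ℝ) := Nat.le_ceil _
    have h2 : ((⌈1 / θ⌉₊ + 1 : ℕ) : ℝ) ≤ z := by exact_mod_cast hz
    push_cast at h2
    have h3 : 1 / θ ≤ z := by linarith
    rwa [div_le_iff₀ hθ] at h3
  have h2z : (0 : ℝ) < (2 : ℝ) ^ z := by positivity
  have hlz : 0 < Real.log ((2 : ℝ) ^ z) := by
    apply Real.log_pos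
    exact one_lt_pow₀ (by norm_num) (by omega)
  have hpow : (2 : ℝ) ≤ ((2 : ℝ) ^ z) ^ θ := by
    rw [← Real.rpow_natCast, ← Real.rpow_mul (by norm_num)]
    calc (2 : ℝ) = (2 : ℝ) ^ (1 : ℝ) := (Real.rpow_one 2).symm
      _ ≤ (2 : ℝ) ^ ((z : ℝ) * θ) := Real.rpow_le_rpow_of_exponent_le (by norm_num) hzθ
  have hL2r : (2 : ℝ) ≤ L := hpow.trans hL
  have hL2 : 2 ≤ L := by exact_mod_cast hL2r
  have hLpos : (0 : ℝ) < L := by linarith
  have hlogL : θ * Real.log ((2 : ℝ) ^ z) ≤ Real.log L := by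
    rw [← Real.log_rpow h2z]
    exact Real.log_le_log (by positivity) hL
  have hlogLpos : 0 < Real.log L := lt_of_lt_of_le (by positivity) hlogL
  -- bound for the sum
  have hsum : ∑ y ∈ Ico x (x + L), FA z A y ≤
      Real.log ((2 : ℝ) ^ z) * (((Ico x (x + L)).filter Nat.Prime).card : ℝ) := by
    have : ∀ y ∈ Ico x (x + L), FA z A y ≤
        if Nat.Prime y then Real.log ((2 : ℝ) ^ z) else 0 := by
      intro y _
      unfold FA
      split_ifs with h1 h2 h2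
      · exact le_refl _
      · exact absurd (hA y h1).1 h2
      · exact hlz.le
      · exact le_refl _
    refine (sum_le_sum this).trans ?_
    rw [← sum_filter, sum_const, nsmul_eq_mul, mul_comm]
  rw [AN_eq8, div_le_iff₀ hLpos]
  calc ∑ y ∈ Ico x (x + L), FA z A y ≤
      Real.log ((2 : ℝ) ^ z) * (((Ico x (x + L)).filter Nat.Prime).card : ℝ) := hsum
    _ ≤ Real.log ((2 : ℝ) ^ z) * (B * L / Real.log L) :=
        mul_le_mul_of_nonneg_left (hbt x L hL2) hlz.le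
    _ = B * L * (Real.log ((2 : ℝ) ^ z) / Real.log L) := by ring
    _ ≤ B * L * (1 / θ) := by
        apply mul_le_mul_of_nonneg_left _ (by positivity)
        rw [div_le_div_iff₀ hlogLpos hθ]
        linarith
    _ = B / θ * L := by ring

/-- difference of two products of numbers in `[0, V]` -/
private lemma prod_diff8 {ρ : Type} (s : Finset ρ) (a b : ρ → ℝ) {V E : ℝ} (hV : 1 ≤ V)
    (ha0 : ∀ j, 0 ≤ a j) (haV : ∀ j, a j ≤ V) (hb0 : ∀ j, 0 ≤ b j) (hbV : ∀ j, b j ≤ V)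
    (hE : ∀ j, |a j - b j| ≤ E) (hE0 : 0 ≤ E) :
    |∏ j ∈ s, a j - ∏ j ∈ s, b j| ≤ s.card * V ^ s.card * E := by
  classical
  induction s using Finset.induction_on with
  | empty => simp
  | insert i s his ih =>
    rw [prod_insert his, prod_insert his, card_insert_of_notMem his]
    have hP0 : 0 ≤ ∏ j ∈ s, a j := prod_nonneg fun j _ => ha0 j
    have hPV : ∏ j ∈ s, a j ≤ V ^ s.card := by
      rw [← prod_const]
      exact prod_le_prod (fun j _ => ha0 j) (fun j _ => haV j)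
    have hVn : 0 ≤ V ^ s.card := by positivity
    have e : a i * ∏ j ∈ s, a j - b i * ∏ j ∈ s, b j =
        (a i - b i) * ∏ j ∈ s, a j + b i * (∏ j ∈ s, a j - ∏ j ∈ s, b j) := by ring
    rw [e]
    refine (abs_add_le _ _).trans ?_
    rw [abs_mul, abs_mul, abs_of_nonneg hP0, abs_of_nonneg (hb0 i)]
    have h1 : |a i - b i| * ∏ j ∈ s, a j ≤ E * V ^ s.card :=
      mul_le_mul (hE i) hPV hP0 hE0
    have h2 : b i * |∏ j ∈ s, a j - ∏ j ∈ s, b j| ≤ V * (s.card * V ^ s.card * E) :=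
      mul_le_mul (hbV i) ih (abs_nonneg _) (by linarith)
    have h3 : E * V ^ s.card ≤ V ^ (s.card + 1) * E := by
      rw [pow_succ]
      have : E * V ^ s.card * 1 ≤ E * V ^ s.card * V :=
        mul_le_mul_of_nonneg_left hV (by positivity)
      nlinarith
    push_cast
    calc |a i - b i| * ∏ j ∈ s, a j + b i * |∏ j ∈ s, a j - ∏ j ∈ s, b j|
        ≤ V ^ (s.card + 1) * E + V * (s.card * V ^ s.card * E) := by linarith
      _ = ((s.card : ℝ) + 1) * V ^ (s.card + 1) * E := by ring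

private lemma log_small8 (K c : ℝ) (hK : 0 < K) (hc : 0 < c) : ∃ z0 : ℕ, ∀ z : ℕ, z0 ≤ z →
    K * Real.log ((2 : ℝ) ^ z) ≤ ((2 : ℝ) ^ z) ^ c := by
  have h1 : (fun x : ℝ => Real.log x) =o[Filter.atTop] (fun x : ℝ => x ^ c) :=
    isLittleO_log_rpow_atTop hc
  have h2 := h1.bound (c := 1 / K) (by positivity)
  have h3 : Filter.Tendsto (fun z : ℕ => (2 : ℝ) ^ z) Filter.atTop Filter.atTop :=
    tendsto_pow_atTop_atTop_of_one_lt (by norm_num)
  have h4 := h3.eventually h2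
  obtain ⟨z0, hz0⟩ := Filter.eventually_atTop.1 h4
  refine ⟨z0, fun z hz => ?_⟩
  have h5 := hz0 z hz
  rw [Real.norm_of_nonneg (lz_nonneg8 z), Real.norm_of_nonneg (by positivity)] at h5
  calc K * Real.log ((2 : ℝ) ^ z) ≤ K * (1 / K * ((2 : ℝ) ^ z) ^ c) :=
        mul_le_mul_of_nonneg_left h5 hK.le
    _ = ((2 : ℝ) ^ z) ^ c := by field_simp

/-- products of averages over long intervals are bounded and change slowly -/
theorem prod_AN (ρ : Type) [Fintype ρ] (θ : ℝ) (hθ : 0 < θ) : ∃ V : ℝ, 1 ≤ V ∧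
    ∀ γ ε ε' : ℝ, 1 ≤ γ → 0 < ε' → ε' < ε → ε ≤ 1 / 2 → ∃ z0 : ℕ, ∀ z : ℕ, z0 ≤ z →
    ∀ A : Finset ℕ, PS z A →
    ∀ D : ℝ, ((2 : ℝ) ^ z) ^ θ ≤ D → ∀ L w : ρ → ℕ, (∀ j, D ^ (γ - ε') / 8 ≤ L j) →
      (∀ x, |∏ j, AN (L j) (FA z A) (x + w j)| ≤ V) ∧
      ∀ x t : ℕ, |(∏ j, AN (L j) (FA z A) (x + t + w j)) - ∏ j, AN (L j) (FA z A) (x + w j)| ≤
        V * t / D ^ (γ - ε) := by
  obtain ⟨V1, hV1, z1, H1⟩ := AN_le (θ / 4) (by positivity)
  refine ⟨V1 ^ Fintype.card ρ, one_le_pow₀ hV1, ?_⟩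
  intro γ ε ε' hγ hε' hεε hε
  obtain ⟨z2, H2⟩ := log_small8 (8 * (Fintype.card ρ + 1)) (θ * (ε - ε')) (by positivity)
    (mul_pos hθ (by linarith))
  refine ⟨max (max z1 z2) (⌈12 / θ⌉₊ + 1), ?_⟩
  intro z hz A hA D hD L w hL
  have hz1 : z1 ≤ z := (le_max_left _ _).trans ((le_max_left _ _).trans hz)
  have hz2 : z2 ≤ z := (le_max_right _ _).trans ((le_max_left _ _).trans hz)
  have hz3 : ⌈12 / θ⌉₊ + 1 ≤ z := (le_max_right _ _).trans hz
  have hzθ : 12 ≤ (z : ℝ) * θ := by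
    have h1 : 12 / θ ≤ (⌈12 / θ⌉₊ : ℝ) := Nat.le_ceil _
    have h2 : ((⌈12 / θ⌉₊ + 1 : ℕ) : ℝ) ≤ z := by exact_mod_cast hz3
    push_cast at h2
    have h3 : 12 / θ ≤ z := by linarith
    rwa [div_le_iff₀ hθ] at h3
  have h2z : (1 : ℝ) ≤ (2 : ℝ) ^ z := one_le_pow₀ (by norm_num)
  have h2z0 : (0 : ℝ) ≤ (2 : ℝ) ^ z := by linarith
  have hZθ1 : 1 ≤ ((2 : ℝ) ^ z) ^ θ := Real.one_le_rpow h2z hθ.le
  have hD1 : 1 ≤ D := hZθ1.trans hD
  have hD0 : 0 < D := by linarith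
  have h8 : (8 : ℝ) ≤ ((2 : ℝ) ^ z) ^ (θ / 4) := by
    rw [← Real.rpow_natCast, ← Real.rpow_mul (by norm_num)]
    calc (8 : ℝ) = (2 : ℝ) ^ (3 : ℝ) := by norm_num
      _ ≤ (2 : ℝ) ^ ((z : ℝ) * (θ / 4)) :=
          Real.rpow_le_rpow_of_exponent_le (by norm_num) (by linarith)
  have hLbig : ∀ j, ((2 : ℝ) ^ z) ^ (θ / 4) ≤ L j := by
    intro j
    refine le_trans ?_ (hL j)
    rw [le_div_iff₀ (by norm_num : (0 : ℝ) < 8)]
    calc ((2 : ℝ) ^ z) ^ (θ / 4) * 8 ≤ ((2 : ℝ) ^ z) ^ (θ / 4) * ((2 : ℝ) ^ z) ^ (θ / 4) :=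
          mul_le_mul_of_nonneg_left h8 (by positivity)
      _ = ((2 : ℝ) ^ z) ^ (θ * (1 / 2)) := by
          rw [← Real.rpow_add (by positivity)]
          congr 1; ring
      _ = (((2 : ℝ) ^ z) ^ θ) ^ (1 / 2 : ℝ) := by rw [Real.rpow_mul h2z0]
      _ ≤ D ^ (1 / 2 : ℝ) := Real.rpow_le_rpow (by positivity) hD (by norm_num)
      _ ≤ D ^ (γ - ε') := Real.rpow_le_rpow_of_exponent_le hD1 (by linarith)
  have hf0 := FA_nonneg8 z A
  have hAV : ∀ j x, AN (L j) (FA z A) x ≤ V1 := fun j x => H1 z hz1 A hA (L j) (hLbig j) x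
  have hA0 : ∀ j x, 0 ≤ AN (L j) (FA z A) x := fun j x => AN_nonneg8 hf0 (L j) x
  refine ⟨fun x => ?_, fun x t => ?_⟩
  · rw [abs_of_nonneg (prod_nonneg fun j _ => hA0 j _)]
    calc ∏ j, AN (L j) (FA z A) (x + w j) ≤ ∏ _j : ρ, V1 :=
          prod_le_prod (fun j _ => hA0 j _) (fun j _ => hAV j _)
      _ = V1 ^ Fintype.card ρ := by rw [prod_const, card_univ]
  · have hLpos : ∀ j, 0 < L j := by
      intro j
      have h1 := (by linarith [h8, hLbig j] : (8 : ℝ) ≤ L j)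
      have h2 : (8 : ℕ) ≤ L j := by exact_mod_cast h1
      omega
    set E : ℝ := Real.log ((2 : ℝ) ^ z) * t / (D ^ (γ - ε') / 8) with hEdef
    have hDp : 0 < D ^ (γ - ε') := Real.rpow_pos_of_pos hD0 _
    have hDp2 : 0 < D ^ (γ - ε) := Real.rpow_pos_of_pos hD0 _
    have hE0 : 0 ≤ E := by
      have := lz_nonneg8 z
      positivity
    have hstep : ∀ j, |AN (L j) (FA z A) (x + t + w j) - AN (L j) (FA z A) (x + w j)| ≤ E := by
      intro j
      have h1 := AN_step8 hf0 (FA_le8 z A) (hLpos j) (x + w j) t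
      have e1 : x + w j + t = x + t + w j := by ring
      rw [e1] at h1
      refine h1.trans ?_
      have hlz := lz_nonneg8 z
      exact div_le_div_of_nonneg_left (by positivity) (by positivity) (hL j)
    have hd := prod_diff8 (univ : Finset ρ) (fun j => AN (L j) (FA z A) (x + t + w j))
      (fun j => AN (L j) (FA z A) (x + w j)) hV1 (fun j => hA0 j _) (fun j => hAV j _)
      (fun j => hA0 j _) (fun j => hAV j _) hstep hE0
    rw [card_univ] at hd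
    refine hd.trans ?_
    have hlz := lz_nonneg8 z
    have hkey : 8 * (Fintype.card ρ : ℝ) * Real.log ((2 : ℝ) ^ z) ≤ D ^ (ε - ε') := by
      calc 8 * (Fintype.card ρ : ℝ) * Real.log ((2 : ℝ) ^ z)
          ≤ 8 * ((Fintype.card ρ : ℝ) + 1) * Real.log ((2 : ℝ) ^ z) := by
            apply mul_le_mul_of_nonneg_right _ hlz
            linarith
        _ ≤ ((2 : ℝ) ^ z) ^ (θ * (ε - ε')) := H2 z hz2
        _ = (((2 : ℝ) ^ z) ^ θ) ^ (ε - ε') := by rw [Real.rpow_mul h2z0]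
        _ ≤ D ^ (ε - ε') := Real.rpow_le_rpow (by positivity) hD (by linarith)
    have hsplit : D ^ (γ - ε') = D ^ (γ - ε) * D ^ (ε - ε') := by
      rw [← Real.rpow_add hD0]
      congr 1; ring
    have hVn : 0 ≤ V1 ^ Fintype.card ρ := by positivity
    have e2 : (Fintype.card ρ : ℝ) * V1 ^ Fintype.card ρ * E =
        V1 ^ Fintype.card ρ * t * (8 * (Fintype.card ρ : ℝ) * Real.log ((2 : ℝ) ^ z)) /
          D ^ (γ - ε') := by
      rw [hEdef]
      field_simp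
    rw [e2, div_le_div_iff₀ hDp hDp2, hsplit]
    have h5 : V1 ^ Fintype.card ρ * t * (8 * (Fintype.card ρ : ℝ) * Real.log ((2 : ℝ) ^ z)) ≤
        V1 ^ Fintype.card ρ * t * D ^ (ε - ε') :=
      mul_le_mul_of_nonneg_left hkey (by positivity)
    nlinarith [mul_le_mul_of_nonneg_right h5 hDp2.le]

end

end Pool.Agent.Helper57.NX3
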